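import Mathlib
import Pool.Agent.R439.ExpF
import Pool.Agent.R439.ExpStar

set_option autoImplicit false

namespace Pool.Agent.Results.MP_20c673_nt.ExponentExists

open Finset Polynomial Pool.Agent.R439

/-- **Answer to Q1.** For every admissible triple there is exactly one integer `f` for which the
congruence holds; moreover, with `a = ⟨-r/m⟩_p`, it is
`f = -(m a (a+1) + (r + m a)(p - 1 - 2a))/2`. -/
theorem result (p m r : ℕ) (h : Admissible p m r) :
    (∃! f : ℤ, SumCong p m r f) ∧
    ∀ f : ℤ, SumCong p m r f → 2 * f =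
      -((m : ℤ) * res p m r * (res p m r + 1) + (r + m * res p m r) * (p - 1 - 2 * res p m r)) := by
  obtain ⟨hp, hp2, hm1, hr, hmr, hpm⟩ := h
  have : Fact p.Prime := ⟨hp⟩
  obtain ⟨s, hs⟩ := exists_s (p := p) (r := r) hpm
  have H : ∀ f : ℤ, SumCong p m r f ↔ f = gexp p m (res p m r) s := fun f => by
    rw [SumCong, CongX_iff, star_iff hp2 hpm hs]
  refine ⟨⟨gexp p m (res p m r) s, (H _).2 rfl, fun f hf => (H f).1 hf⟩, fun f hf => ?_⟩
  rw [(H f).1 hf, gexp_two hp2 hs]

end Pool.Agent.Results.MP_20c673_nt.ExponentExists
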