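import Mathlib
import Pool.Agent.R439.ExpF
import Pool.Agent.R439.ExpStar

set_option autoImplicit false

namespace Pool.Agent.Results.MP_20c673_nt.ShiftRelation

open Finset Polynomial Pool.Agent.R439

theorem res_shift {p m r : ℕ} [Fact p.Prime] (hpm : ¬ p ∣ m) :
    (p ∣ r → res p m r = 0 ∧ res p m (r + m) = p - 1) ∧
    (¬ p ∣ r → res p m (r + m) + 1 = res p m r) := by
  have hm' : (m : ZMod p) ≠ 0 := by rwa [Ne, ZMod.natCast_eq_zero_iff]
  have hp : 0 < p := (Fact.out : p.Prime).pos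
  have hshift : (-((r + m : ℕ) : ZMod p) * (m : ZMod p)⁻¹) = (-(r : ZMod p) * (m : ZMod p)⁻¹) - 1 := by
    push_cast; field_simp; ring
  constructor
  · intro h
    have h0 : (r : ZMod p) = 0 := by rwa [ZMod.natCast_eq_zero_iff]
    refine ⟨by rw [res, h0]; simp, ?_⟩
    rw [res, hshift, h0, neg_zero, zero_mul, zero_sub]
    obtain ⟨k, hk⟩ : ∃ k, p = k + 1 := ⟨p - 1, by omega⟩
    subst hk
    rw [ZMod.val_neg_one]; simp
  · intro h
    have h1 := res_lt (p := p) m r
    have h2 := res_lt (p := p) m (r + m)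
    have hne : (-(r : ZMod p) * (m : ZMod p)⁻¹) ≠ 0 := by
      have : (r : ZMod p) ≠ 0 := by rwa [Ne, ZMod.natCast_eq_zero_iff]
      exact mul_ne_zero (neg_ne_zero.2 this) (inv_ne_zero hm')
    have hpos : 0 < res p m r := Nat.pos_of_ne_zero fun h0 => hne ((ZMod.val_eq_zero _).1 h0)
    have e : ((res p m (r + m) + 1 : ℕ) : ZMod p) = (res p m r : ZMod p) := by
      push_cast
      rw [res, res, ZMod.natCast_zmod_val, ZMod.natCast_zmod_val, hshift]; ring
    rw [ZMod.natCast_eq_natCast_iff] at e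
    have e' : (res p m (r + m) + 1) % p = res p m r % p := e
    rw [Nat.mod_eq_of_lt h1] at e'
    rcases Nat.lt_or_ge (res p m (r + m) + 1) p with h3 | h3
    · rwa [Nat.mod_eq_of_lt h3] at e'
    · have : res p m (r + m) + 1 = p := by omega
      rw [this, Nat.mod_self] at e'
      omega

/-- **Answer to Q2.** For every admissible triple `(p,m,r)` the integers `f = f_{p,m,r}` and
`f' = f_{p,m,r+m}` exist (and are unique), and `f' = -f` if `p ∣ r`, `f' = f - r` if `p ∤ r`. -/
theorem result (p m r : ℕ) (h : Admissible p m r) :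
    ∃ f f' : ℤ, (∀ g : ℤ, SumCong p m r g ↔ g = f) ∧ (∀ g : ℤ, SumCong p m (r + m) g ↔ g = f') ∧
      ((p ∣ r) → f' = -f) ∧ ((¬ p ∣ r) → f' = f - r) := by
  obtain ⟨hp, hp2, hm1, hr, hmr, hpm⟩ := h
  have : Fact p.Prime := ⟨hp⟩
  obtain ⟨s, hs⟩ := exists_s (p := p) (r := r) hpm
  obtain ⟨s', hs'⟩ := exists_s (p := p) (r := r + m) hpm
  have H : ∀ g : ℤ, SumCong p m r g ↔ g = gexp p m (res p m r) s := fun f => by
    rw [SumCong, CongX_iff, star_iff hp2 hpm hs]
  have H' : ∀ g : ℤ, SumCong p m (r + m) g ↔ g = gexp p m (res p m (r + m)) s' := fun f => by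
    rw [SumCong, CongX_iff, star_iff hp2 hpm hs']
  have e := gexp_two hp2 hs
  have e' := gexp_two hp2 hs'
  obtain ⟨h1, h2⟩ := res_shift (r := r) hpm
  have hppos : 1 ≤ p := hp.one_lt.le
  refine ⟨_, _, H, H', fun hd => ?_, fun hd => ?_⟩
  · obtain ⟨a0, a1⟩ := h1 hd
    have a1' : (res p m (r + m) : ℤ) = p - 1 := by rw [a1]; push_cast [hppos]; ring
    have a0' : (res p m r : ℤ) = 0 := by rw [a0]; rfl
    rw [a0'] at e
    rw [a1'] at e'
    apply mul_left_cancel₀ (two_ne_zero (α := ℤ))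
    push_cast at e e'
    linear_combination e' + e
  · have a1 := h2 hd
    have a1' : (res p m r : ℤ) = res p m (r + m) + 1 := by exact_mod_cast a1.symm
    rw [a1'] at e
    apply mul_left_cancel₀ (two_ne_zero (α := ℤ))
    push_cast at e e'
    linear_combination e' - e

end Pool.Agent.Results.MP_20c673_nt.ShiftRelation
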